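import Pool.Agent.H.MP_242378_al.C

set_option autoImplicit false

namespace Pool.Agent.Results.MP_242378_al.Yes

def double {F : Type} [Field F] {n : ℕ} (x : Matrix (Fin n → Bool) (Fin n → Bool) F) :
    Matrix (Fin (n + 1) → Bool) (Fin (n + 1) → Bool) F :=
  Matrix.of fun a b => if a (Fin.last n) = b (Fin.last n) then x (Fin.init a) (Fin.init b) else 0

theorem result (F : Type) [Field F] (M : Type) [Ring M] [MetricSpace M] [CompleteSpace M]
    [IsTopologicalRing M] (ι : ∀ n : ℕ, Matrix (Fin n → Bool) (Fin n → Bool) F →+* M)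
    (hc : ∀ n x, ι (n + 1) (double x) = ι n x)
    (hd : ∀ n x y, dist (ι n x) (ι n y) = ((x - y).rank : ℝ) / 2 ^ n)
    (hden : Dense (⋃ n, Set.range (ι n))) : ContractibleSpace {x : M // IsUnit x} :=
  H.MP_242378_al.main ι hc hd hden

end Pool.Agent.Results.MP_242378_al.Yes
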